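import Pool.Agent.K3h56.E2.Stm

/-!
# Project E2 (helper56, MP_dd9835_nt), brick ASM: Stark's conjecture over `ℚ` from the statements
for the characters, `G` of exponent two (helper62)
-/

set_option autoImplicit false

open NumberField IsDedekindDomain Filter Topology

noncomputable section

namespace Pool.Agent.K3h62.E2

open Pool.Agent.K3h30.RS Pool.Agent.K3h56.E2

section cv

variable {G : Type} [CommGroup G]

/-- The value of a character as an algebra homomorphism. -/
def cvHom (χ : G →* ℂˣ) : MonoidAlgebra ℝ G →ₐ[ℝ] ℂ :=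
  MonoidAlgebra.lift ℝ ℂ G ((Units.coeHom ℂ).comp χ)

theorem cvHom_single (χ : G →* ℂˣ) (g : G) (a : ℝ) :
    cvHom χ (MonoidAlgebra.single g a) = a * χ g := by
  unfold cvHom
  rw [MonoidAlgebra.lift_single]
  simp

theorem toR_single (g : G) (a : ℚ) :
    toR (MonoidAlgebra.single g a) = MonoidAlgebra.single g (a : ℝ) := by
  unfold toR
  simp

theorem charValue_eq [Finite G] (χ : G →* ℂˣ) (ρ : MonoidAlgebra ℝ G) :
    charValue χ ρ = cvHom χ ρ := by
  let _ := Fintype.ofFinite G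
  unfold charValue cvHom
  rw [MonoidAlgebra.lift_apply, Finsupp.sum_fintype]
  · refine Finset.sum_congr rfl ?_
    intro x _
    simp
  · intro i
    simp

/-- The sign of a character. -/
def eps (χ : G →* ℂˣ) (g : G) : ℚ := by
  classical
  exact if χ g = 1 then 1 else -1

theorem eps_one {χ : G →* ℂˣ} {g : G} (h : χ g = 1) : eps χ g = 1 := by
  unfold eps
  rw [if_pos h]

theorem eps_neg {χ : G →* ℂˣ} {g : G} (h : χ g ≠ 1) : eps χ g = -1 := by
  unfold eps
  rw [if_neg h]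

theorem chi_eq {χ : G →* ℂˣ} (h2 : ∀ g : G, g * g = 1) (g : G) :
    ((χ g : ℂˣ) : ℂ) = ((eps χ g : ℚ) : ℂ) := by
  by_cases h : χ g = 1
  · rw [eps_one h, h]
    simp
  · rw [eps_neg h]
    have h1 : ((χ g : ℂˣ) : ℂ) * ((χ g : ℂˣ) : ℂ) = 1 := by
      rw [← Units.val_mul, ← map_mul, h2, map_one, Units.val_one]
    rcases mul_self_eq_one_iff.1 h1 with h3 | h3
    · exact absurd (Units.ext h3) h
    · rw [h3]
      push_cast
      ring

theorem inv_chi {χ : G →* ℂˣ} (h2 : ∀ g : G, g * g = 1) : χ⁻¹ = χ := by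
  ext g
  rw [MonoidHom.inv_apply, ← map_inv, inv_eq_of_mul_eq_one_left (h2 g)]

theorem finite_chars [Finite G] (h2 : ∀ g : G, g * g = 1) : Finite (G →* ℂˣ) := by
  refine Finite.of_injective (fun (χ : G →* ℂˣ) (g : G) => (χ g = 1 : Prop)) ?_
  intro χ χ' h
  ext g
  rw [chi_eq h2, chi_eq h2]
  have h1 : (χ g = 1) = (χ' g = 1) := congrFun h g
  by_cases h3 : χ g = 1
  · rw [eps_one h3, eps_one (cast h1 h3)]
  · rw [eps_neg h3, eps_neg fun h4 => h3 (cast h1.symm h4)]

theorem cv_sum [Fintype G] (h2 : ∀ g : G, g * g = 1) (χ χ' : G →* ℂˣ) (a : ℚ) :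
    cvHom χ' (toR (∑ g : G, MonoidAlgebra.single g (a * eps χ g))) =
      (a : ℂ) * ∑ g : G, ((eps χ g : ℚ) : ℂ) * ((eps χ' g : ℚ) : ℂ) := by
  rw [map_sum, map_sum, Finset.mul_sum]
  refine Finset.sum_congr rfl fun g _ => ?_
  rw [toR_single, cvHom_single, chi_eq h2]
  push_cast
  ring

theorem sum_self [Fintype G] (χ : G →* ℂˣ) :
    ∑ g : G, ((eps χ g : ℚ) : ℂ) * ((eps χ g : ℚ) : ℂ) = Fintype.card G := by
  rw [Fintype.card, Finset.card_eq_sum_ones, Nat.cast_sum]
  refine Finset.sum_congr rfl fun g _ => ?_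
  by_cases h : χ g = 1
  · rw [eps_one h]; simp
  · rw [eps_neg h]; simp

theorem sum_ne [Fintype G] (h2 : ∀ g : G, g * g = 1) {χ χ' : G →* ℂˣ} (hne : χ ≠ χ') :
    ∑ g : G, ((eps χ g : ℚ) : ℂ) * ((eps χ' g : ℚ) : ℂ) = 0 := by
  have h : ((Units.coeHom ℂ).comp (χ * χ'⁻¹) : G →* ℂ) ≠ 1 := by
    intro h1
    apply hne
    rw [← mul_inv_eq_one]
    ext g
    exact DFunLike.congr_fun h1 g
  rw [← sum_hom_units_eq_zero _ h]
  refine Finset.sum_congr rfl fun g _ => ?_
  rw [inv_chi (χ := χ') h2, ← chi_eq h2, ← chi_eq h2]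
  simp

end cv

variable {F H G : Type} [Field F] [NumberField F] [Field H] [NumberField H] [Algebra F H]
  [CommGroup G] [Finite G] [MulSemiringAction G H]

theorem av_inv (w : Place H) (x : H) : av w x⁻¹ = (av w x)⁻¹ := by
  cases w with
  | inl w => simp only [av]; rw [map_inv₀, inv_pow]
  | inr w => simp only [av]; rw [map_inv₀]

theorem cv_reg (h2 : ∀ g : G, g * g = 1) (χ : G →* ℂˣ) (w : Place H) (x : Hˣ)
    (h1 : ∀ g : G, χ g = 1 → act g x = x) (hn : ∀ g : G, χ g ≠ 1 → act g x = x⁻¹) :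
    cvHom χ (reg G w x) = (Nat.card G : ℂ) * ((Real.log (av w (x : H)) : ℝ) : ℂ) := by
  let _ := Fintype.ofFinite G
  unfold reg
  rw [map_sum]
  have hs : ∀ γ : G, cvHom χ (MonoidAlgebra.single γ (Real.log (av w ((act γ⁻¹ x : Hˣ) : H)))) =
      ((Real.log (av w (x : H)) : ℝ) : ℂ) := by
    intro γ
    rw [cvHom_single, inv_eq_of_mul_eq_one_left (h2 γ), chi_eq h2]
    by_cases h : χ γ = 1
    · rw [eps_one h, h1 γ h]
      push_cast
      ring
    · rw [eps_neg h, hn γ h, Units.val_inv_eq_inv_val, av_inv, Real.log_inv]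
      push_cast
      ring
  rw [Finset.sum_congr rfl fun γ _ => hs γ, Finset.sum_const, Finset.card_univ, nsmul_eq_mul,
    Nat.card_eq_fintype_card]

theorem cv_det (h2 : ∀ g : G, g * g = 1) (χ : G →* ℂˣ) {r : ℕ} (w : Fin r → Place H)
    (x : Fin r → Hˣ) (h1 : ∀ b, ∀ g : G, χ g = 1 → act g (x b) = x b)
    (hn : ∀ b, ∀ g : G, χ g ≠ 1 → act g (x b) = (x b)⁻¹) :
    cvHom χ (Matrix.det (Matrix.of fun a b : Fin r => reg G (w a) (x b))) =
      (Nat.card G : ℂ) ^ r * ((Matrix.det (Matrix.of fun a b : Fin r =>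
        Real.log (av (w a) (x b : H))) : ℝ) : ℂ) := by
  have e1 : (cvHom χ).mapMatrix (Matrix.of fun a b : Fin r => reg G (w a) (x b)) =
      (Nat.card G : ℂ) • (Matrix.of fun a b : Fin r =>
        ((Real.log (av (w a) (x b : H)) : ℝ) : ℂ)) := by
    ext a b
    simp only [AlgHom.mapMatrix_apply, Matrix.map_apply, Matrix.of_apply, Matrix.smul_apply,
      smul_eq_mul]
    exact cv_reg h2 χ (w a) (x b) (h1 b) (hn b)
  have e2 : ((Matrix.det (Matrix.of fun a b : Fin r =>
      Real.log (av (w a) (x b : H))) : ℝ) : ℂ) = Matrix.det (Matrix.of fun a b : Fin r =>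
        ((Real.log (av (w a) (x b : H)) : ℝ) : ℂ)) := by
    have := RingHom.map_det Complex.ofRealHom (Matrix.of fun a b : Fin r =>
      Real.log (av (w a) (x b : H)))
    rw [Complex.ofRealHom_eq_coe] at this
    rw [this]
    congr 1
  rw [AlgHom.map_det, e1, Matrix.det_smul, Fintype.card_fin, e2]

/-- **Brick ASM.** -/
theorem t_ASM : S_ASM := by
  classical
  intro F H G _ _ _ _ _ _ _ _ _ D h2 hS
  let _ := Fintype.ofFinite G
  have hfin : Finite (G →* ℂˣ) := finite_chars h2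
  have hfin' : Finite {χ : G →* ℂˣ // D.Active χ} := inferInstance
  obtain ⟨n, ⟨e⟩⟩ := Finite.exists_equiv_fin {χ : G →* ℂˣ // D.Active χ}
  choose x q hx1 hxn hlim using fun χ : {χ : G →* ℂˣ // D.Active χ} => (hS χ.1).2 χ.2
  have hG : (Nat.card G : ℂ) ≠ 0 := by
    exact_mod_cast Nat.card_pos.ne'
  let cf : {χ : G →* ℂˣ // D.Active χ} → MonoidAlgebra ℚ G := fun χ =>
    ∑ g : G, MonoidAlgebra.single g ((q χ / (Nat.card G : ℚ) ^ D.r / (Nat.card G : ℚ)) * eps χ.1 g)
  have hcf : ∀ (χ : {χ : G →* ℂˣ // D.Active χ}) (χ' : G →* ℂˣ),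
      cvHom χ' (toR (cf χ)) = if χ.1 = χ' then (q χ : ℂ) / (Nat.card G : ℂ) ^ D.r else 0 := by
    intro χ χ'
    simp only [cf]
    rw [cv_sum h2]
    split_ifs with h
    · subst h
      rw [sum_self, ← Nat.card_eq_fintype_card]
      push_cast
      field_simp
    · rw [sum_ne h2 h, mul_zero]
  refine ⟨⟨n, fun k => cf (e.symm k), fun k => x (e.symm k)⟩, ?_, ?_⟩
  · intro χ hχ k
    rw [charValue_eq, hcf, if_neg]
    rintro rfl
    exact hχ (e.symm k).2
  · intro χ
    have hreg : charValue χ (Wedge.regulator (⟨n, fun k => cf (e.symm k),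
        fun k => x (e.symm k)⟩ : Wedge G D.r (D.U ∅)) D.w) =
        ∑ k : Fin n, cvHom χ (toR (cf (e.symm k))) * cvHom χ (Matrix.det (Matrix.of fun a b =>
          reg G (D.w a) (x (e.symm k) b : Hˣ))) := by
      rw [charValue_eq]
      unfold Wedge.regulator
      rw [map_sum]
      exact Finset.sum_congr rfl fun k _ => map_mul _ _ _
    have hLT : ∀ s, D.LT ∅ χ⁻¹ s = D.L χ s := by
      intro s
      unfold RubinData.LT
      rw [Finset.prod_empty, one_mul, inv_chi h2]
    simp only [hLT]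
    rw [hreg]
    by_cases hA : D.Active χ
    · have h3 : ∑ k : Fin n, cvHom χ (toR (cf (e.symm k))) * cvHom χ (Matrix.det (Matrix.of
          fun a b => reg G (D.w a) (x (e.symm k) b : Hˣ))) =
          (q ⟨χ, hA⟩ : ℂ) * ((Matrix.det (Matrix.of fun a b : Fin D.r =>
            Real.log (av (D.w a) ((x ⟨χ, hA⟩ b : Hˣ) : H))) : ℝ) : ℂ) := by
        rw [Finset.sum_eq_single (e ⟨χ, hA⟩)]
        · rw [Equiv.symm_apply_apply, hcf, if_pos rfl,
            cv_det h2 χ D.w (fun b => (x ⟨χ, hA⟩ b : Hˣ)) (hx1 ⟨χ, hA⟩) (hxn ⟨χ, hA⟩)]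
          field_simp
        · intro k _ hk
          rw [hcf, if_neg, zero_mul]
          intro h4
          apply hk
          rw [← e.apply_symm_apply k]
          congr 1
          exact Subtype.ext h4
        · intro h
          exact absurd (Finset.mem_univ _) h
      rw [h3]
      exact hlim ⟨χ, hA⟩
    · have h3 : ∑ k : Fin n, cvHom χ (toR (cf (e.symm k))) * cvHom χ (Matrix.det (Matrix.of
          fun a b => reg G (D.w a) (x (e.symm k) b : Hˣ))) = 0 := by
        refine Finset.sum_eq_zero fun k _ => ?_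
        rw [hcf, if_neg, zero_mul]
        rintro rfl
        exact hA (e.symm k).2
      rw [h3]
      exact (hS χ).1 hA

end Pool.Agent.K3h62.E2
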